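import Pool.Agent.Helper20_TWS.Stmts

/-!
MP_680ca2_al, part (a), squad TWS: modules ASY (the concrete arc system) and WSF (the handle
complex of the surface).
-/

set_option autoImplicit false

namespace Pool.Agent.TWS.H51

open Pool.Agent.TWS Pool.Agent.TOR Pool.Agent.TOR.H58

/-- ASY -/
theorem asy (hflo : FloS) (hndg : NdgS) (huni : UniS) (hort : OrtS) (hexi : ExiS)
    (hfat : FatS) : AsyS := by
  intro n hn
  refine ⟨{ C := Ca n
            cl := cla
            om := omf n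
            refl := ?_
            symm := ?_
            same := ?_
            fd := inferInstance
            dim := ?_
            alt := (hndg n).1
            ndg := (hndg n).2
            unit := huni n
            orth := hort n
            flow := hflo n
            exist := hexi n
            fat := hfat n hn }, rfl, rfl, rfl⟩
  · rintro ⟨i, x⟩
    exact H59.cmp_same x.2.2.2
  · rintro p q h
    exact H59.Cmp.symm h
  · rintro i j x y h
    exact H59.cmp_same h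
  · rw [Module.finrank_fintype_fun_eq_card]
    simp

theorem cls_inv {n : ℕ} (k : Fn n) : cls k⁻¹ = -cls k := by
  unfold cls
  rw [map_inv]
  rfl

theorem ev_card (m : ℕ) : (Ev m).card = m + 1 := by
  unfold Ev
  rw [Finset.card_image_of_injective _ (by intro a b h; simpa using h), Finset.card_range]

/-- the map of vertices `(j, (x, y)) ↦ (j, (x, y⁻¹))` -/
def tf (n : ℕ) (z : ℕ × (Av n × Av n)) : ℕ × (Fn n × Fn n) := (z.1, (z.2.1.1, (z.2.2.1)⁻¹))

theorem tf_inj (n : ℕ) : Function.Injective (tf n) := by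
  rintro ⟨i, x, y⟩ ⟨j, x', y'⟩ h
  simp only [tf, Prod.mk.injEq, inv_inj] at h
  obtain ⟨h1, h2, h3⟩ := h
  rw [h1, Subtype.ext h2, Subtype.ext h3]

theorem dn_hc (n : ℕ) (v : Hn n) (J : Set ℕ) : Dn (HC n v J) := by
  intro s t hst ht
  obtain ⟨h1, h2, h3⟩ := ht
  refine ⟨fun z hz => h1 z (hst hz), fun z hz z' hz' => h2 z (hst hz) z' (hst hz'), ?_⟩
  rintro p ⟨z, hz, hp⟩ q ⟨z', hz', hq⟩
  exact h3 p ⟨z, hst hz, hp⟩ q ⟨z', hst hz', hq⟩

/-- WSF -/
theorem wsf (hthr : ThrS) (htra : TraS) (hhnd : HndS) (hasy : AsyS) : WsfS := by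
  intro m n hmn v M _ p hp
  have hn2 : 2 ≤ n := by nlinarith
  obtain ⟨S, hC, hcl, hom⟩ := hasy n hn2
  have hJ : (Ev m).card = m + 1 := ev_card m
  have key : Ex M (S.HK (omf n v) (Ev m : Set ℕ) ∅) p := by
    refine hthr (Av n) (Hn n) M n S (omf n v) (Ev m) ∅ ?_ Set.finite_empty ?_ ?_ ?_ ?_ p
      (by rw [hJ]; omega)
    · intro j hj hj1
      unfold Ev at hj hj1
      rw [Finset.mem_image] at hj hj1
      obtain ⟨a, _, ha⟩ := hj
      obtain ⟨b, _, hb⟩ := hj1
      omega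
    · intro p hp
      exact absurd hp (Set.notMem_empty p)
    · unfold ASys.IndG
      exact linearIndepOn_empty _ _
    · intro q hq
      exact absurd hq (Set.notMem_empty q)
    · rw [Set.ncard_empty, hJ]
      omega
  refine (htra (ℕ × (Av n × Av n)) (ℕ × (Fn n × Fn n)) M (tf n) (S.HK (omf n v) (Ev m : Set ℕ) ∅)
    (HC n v (Ev m : Set ℕ)) p (tf_inj n) (dn_hc n v _) ?_ ?_).2 key
  · intro s
    have hv : ∀ z ∈ s, (H59.Hnd (H59.sR n) (tf n z).2.1 (tf n z).2.2 ↔ S.IsH z.2) := by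
      rintro ⟨j, x, y⟩ _
      simp only [tf]
      unfold ASys.IsH
      rw [hC, hcl, hom]
      constructor
      · intro h
        refine ⟨?_, ?_⟩
        · have h1 := h.2.2.1
          exact H59.cmp_inv_right.1 h1
        · have h1 := (hhnd n).2 _ _ h
          rw [inv_inv] at h1
          exact h1
      · rintro ⟨h1, h2⟩
        exact (hhnd n).1 x y h1 h2
    constructor
    · rintro ⟨h1, h2, h3⟩
      refine ⟨?_, ?_, ?_⟩
      · intro z hz
        obtain ⟨a1, a2, a3, a4⟩ := h1 (tf n z) ⟨z, hz, rfl⟩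
        refine ⟨a1, (hv z hz).1 a2, ?_, ?_⟩
        · rw [hcl]; exact a3
        · rw [hcl]
          have : omf n v (cls (z.2.2.1)⁻¹) = 0 := a4
          rw [cls_inv, map_neg, neg_eq_zero] at this
          exact this
      · intro z hz z' hz' hzz
        exact tf_inj n (h2 (tf n z) ⟨z, hz, rfl⟩ (tf n z') ⟨z', hz', rfl⟩ hzz)
      · rw [Set.empty_union]
        rintro ⟨i, x⟩ ⟨z, hz, hz1, hz2⟩ ⟨j, y⟩ ⟨z', hz', hz1', hz2'⟩
        rw [hC]
        -- the arcs up to inversion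
        have hx : ∃ k : Fn n, (k = x.1 ∨ k = (x.1)⁻¹) ∧ (i, k) ∈ uz (tf n '' s) := by
          rcases hz2 with h | h
          · exact ⟨x.1, Or.inl rfl, tf n z, ⟨z, hz, rfl⟩, hz1, Or.inl (by
              change x.1 = z.2.1.1
              rw [← h])⟩
          · exact ⟨(x.1)⁻¹, Or.inr rfl, tf n z, ⟨z, hz, rfl⟩, hz1, Or.inr (by
              change (x.1)⁻¹ = (z.2.2.1)⁻¹
              rw [← h])⟩
        have hy : ∃ k : Fn n, (k = y.1 ∨ k = (y.1)⁻¹) ∧ (j, k) ∈ uz (tf n '' s) := by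
          rcases hz2' with h | h
          · exact ⟨y.1, Or.inl rfl, tf n z', ⟨z', hz', rfl⟩, hz1', Or.inl (by
              change y.1 = z'.2.1.1
              rw [← h])⟩
          · exact ⟨(y.1)⁻¹, Or.inr rfl, tf n z', ⟨z', hz', rfl⟩, hz1', Or.inr (by
              change (y.1)⁻¹ = (z'.2.2.1)⁻¹
              rw [← h])⟩
        obtain ⟨k, hk, hk1⟩ := hx
        obtain ⟨l, hl, hl1⟩ := hy
        have hkl : H59.Cmp (H59.sR n) i k j l := h3 _ hk1 _ hl1
        change H59.Cmp (H59.sR n) i x.1 j y.1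
        rcases hk with rfl | rfl <;> rcases hl with rfl | rfl
        · exact hkl
        · exact H59.cmp_inv_right.1 hkl
        · exact H59.cmp_inv_left.1 hkl
        · exact H59.cmp_inv_left.1 (H59.cmp_inv_right.1 hkl)
    · rintro ⟨h1, h2, h3⟩
      rw [Set.empty_union] at h3
      refine ⟨?_, ?_, ?_⟩
      · rintro w ⟨z, hz, rfl⟩
        obtain ⟨a1, a2, a3, a4⟩ := h1 z hz
        rw [hcl] at a3 a4
        refine ⟨a1, (hv z hz).2 a2, a3, ?_⟩
        change omf n v (cls (z.2.2.1)⁻¹) = 0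
        rw [cls_inv, map_neg, neg_eq_zero]
        exact a4
      · rintro w ⟨z, hz, rfl⟩ w' ⟨z', hz', rfl⟩ hww
        rw [h2 z hz z' hz' hww]
      · rintro ⟨i, k⟩ ⟨w, ⟨z, hz, rfl⟩, hw1, hw2⟩ ⟨j, l⟩ ⟨w', ⟨z', hz', rfl⟩, hw1', hw2'⟩
        have hx : ∃ x : Av n, (k = x.1 ∨ k = (x.1)⁻¹) ∧ (i, x) ∈ uz s := by
          rcases hw2 with h | h
          · exact ⟨z.2.1, Or.inl h, z, hz, hw1, Or.inl rfl⟩
          · exact ⟨z.2.2, Or.inr h, z, hz, hw1, Or.inr rfl⟩
        have hy : ∃ y : Av n, (l = y.1 ∨ l = (y.1)⁻¹) ∧ (j, y) ∈ uz s := by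
          rcases hw2' with h | h
          · exact ⟨z'.2.1, Or.inl h, z', hz', hw1', Or.inl rfl⟩
          · exact ⟨z'.2.2, Or.inr h, z', hz', hw1', Or.inr rfl⟩
        obtain ⟨x, hx, hx1⟩ := hx
        obtain ⟨y, hy, hy1⟩ := hy
        have hxy := h3 _ hx1 _ hy1
        rw [hC] at hxy
        have hxy' : H59.Cmp (H59.sR n) i x.1 j y.1 := hxy
        change H59.Cmp (H59.sR n) i k j l
        rcases hx with rfl | rfl <;> rcases hy with rfl | rfl
        · exact hxy'
        · exact H59.cmp_inv_right.2 hxy'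
        · exact H59.cmp_inv_left.2 hxy'
        · exact H59.cmp_inv_left.2 (H59.cmp_inv_right.2 hxy')
  · rintro ⟨j, k, l⟩ ⟨h1, _, _⟩
    have h := (h1 (j, k, l) rfl).2.1
    exact ⟨(j, (⟨k, h.1⟩, ⟨l⁻¹, h.2.1⟩)), by simp [tf]⟩

end Pool.Agent.TWS.H51
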